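import Pool.Agent.Helper38.IA.St

/-!
# Project IA, module X4: the crossing graph satisfies the hypotheses of L3
-/

set_option autoImplicit false

namespace Pool.Agent.Helper94.IA38

open Finset Pool.Agent.Helper93.IA Pool.Agent.Helper38.IA

private theorem crs_ind {α β : Type} [DecidableEq α] [DecidableEq β] (A : Finset (α × β))
    (U1 : Finset α) (U2 : Finset β) (a : α) (b : β) (h : a ∈ U1 ↔ b ∈ U2) :
    (if (a, b) ∈ crs A U1 U2 then (1 : ℝ) else 0) = 0 := by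
  rw [if_neg]
  intro hc
  rw [crs, mem_filter] at hc
  exact hc.2 h

theorem hX4 : StX4 := by
  intro hT0 hT2 hX1 hX2 ξ g ρ h1 h2 h3 h4 h5 h6 α β γ _ _ _ _ _ _ κ n m A0 A B0 B C0 C
    U1 W1 U2 W2 U3 W3 h7 h8 h9 hL
  have hL2 := Lv_rot hL
  have hL3 := Lv_rot hL2
  have x1 := hX1 ξ g ρ h1 h2 h3 h4 h5 h6 α β γ κ n m A0 A B0 B C0 C U1 W1 U2 W2 U3 W3 h7 h8 h9 hL
  have x2 := hX1 ξ g ρ h1 h2 h3 h4 h5 h6 β γ α κ n m B0 B C0 C A0 A U2 W2 U3 W3 U1 W1 h7 h8 h9 hL2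
  have x3 := hX1 ξ g ρ h1 h2 h3 h4 h5 h6 γ α β κ n m C0 C A0 A B0 B U3 W3 U1 W1 U2 W2 h7 h8 h9 hL3
  have y1 := hX2 ξ g ρ h1 h2 h3 h4 h5 h6 α β γ κ n m A0 A B0 B C0 C U1 W1 U2 W2 U3 W3 h7 h8 h9 hL
  have y2 := hX2 ξ g ρ h1 h2 h3 h4 h5 h6 β γ α κ n m B0 B C0 C A0 A U2 W2 U3 W3 U1 W1 h7 h8 h9 hL2
  have y3 := hX2 ξ g ρ h1 h2 h3 h4 h5 h6 γ α β κ n m C0 C A0 A B0 B U3 W3 U1 W1 U2 W2 h7 h8 h9 hL3
  obtain ⟨-, -, -, d1', d2', d3', -⟩ :=
    hT0 α β γ (crs A U1 U2) (crs B U2 U3) (crs C U3 U1)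
  obtain ⟨e1, e2, e3, e4, e5, e6⟩ :=
    hT2 α β γ (crs A U1 U2) (crs B U2 U3) (crs C U3 U1)
  have hn : (0 : ℝ) < n := by
    by_contra hle
    push Not at hle
    have hn0 : (n : ℝ) = 0 := le_antisymm hle (Nat.cast_nonneg n)
    rw [hn0, mul_zero] at h9
    linarith
  have hm : (0 : ℝ) < m := by exact_mod_cast x1.1
  refine ⟨U1.disjSum (U2.disjSum U3), ?_, ?_, ?_, ?_, ?_, ?_, ?_, ?_, ?_⟩
  · intro a
    exact Finset.inl_mem_disjSum
  · intro b
    rw [Finset.inr_mem_disjSum, Finset.inl_mem_disjSum]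
  · intro c
    rw [Finset.inr_mem_disjSum, Finset.inr_mem_disjSum]
  · rw [Finset.card_disjSum, Finset.card_disjSum, hL.c1, hL.c2, hL.c3]
    push_cast
    ring
  · rintro (a | b | c) hv (a' | b' | c') hy <;>
      simp only [Finset.inl_mem_disjSum, Finset.inr_mem_disjSum] at hv hy <;>
      simp only [Wt, Sum.elim_inl, Sum.elim_inr] <;>
      exact crs_ind _ _ _ _ _ (by tauto)
  · rintro (a | b | c) hv (a' | b' | c') hy <;>
      simp only [Finset.inl_mem_disjSum, Finset.inr_mem_disjSum] at hv hy <;>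
      simp only [Wt, Sum.elim_inl, Sum.elim_inr] <;>
      exact crs_ind _ _ _ _ _ (by tauto)
  · rintro (a | b | c) hv <;>
      simp only [Finset.inl_mem_disjSum, Finset.inr_mem_disjSum] at hv
    · rw [d1']
      have := x1.2.1 a hv
      exact ⟨by linarith, this.2⟩
    · rw [d2']
      have := x2.2.1 b hv
      exact ⟨by linarith, this.2⟩
    · rw [d3']
      have := x3.2.1 c hv
      exact ⟨by linarith, this.2⟩
  · rintro (a | b | c) hv <;>
      simp only [Finset.inl_mem_disjSum, Finset.inr_mem_disjSum] at hv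
    · rw [d1']
      have := x1.2.2 a hv
      exact ⟨by linarith, this.2⟩
    · rw [d2']
      have := x2.2.2 b hv
      exact ⟨by linarith, this.2⟩
    · rw [d3']
      have := x3.2.2 c hv
      exact ⟨by linarith, this.2⟩
  · rintro (a | b | c) hv (a' | b' | c') hy <;>
      simp only [Finset.inl_mem_disjSum, Finset.inr_mem_disjSum] at hv hy
    · exact (y1.1 a hv a' hy).trans (e1 a a')
    · exact (y1.2 a hv b' hy).trans (e4 a b').1
    · exact (y3.2 c' hy a hv).trans (e6 c' a).2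
    · exact (y1.2 a' hy b hv).trans (e4 a' b).2
    · exact (y2.1 b hv b' hy).trans (e2 b b')
    · exact (y2.2 b hv c' hy).trans (e5 b c').1
    · exact (y3.2 c hv a' hy).trans (e6 c a').1
    · exact (y2.2 b' hy c hv).trans (e5 b' c).2
    · exact (y3.1 c hv c' hy).trans (e3 c c')

end Pool.Agent.Helper94.IA38
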